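import Pool.Agent.helper1.UN.SpecU

/-!
# Project UN, block H, row VCB: orthogonality on the class group
-/

set_option autoImplicit false

open NumberField Complex MeasureTheory NumberField.Units NumberField.Units.dirichletUnitTheorem

open scoped Classical

namespace Pool.Agent.UN

private lemma VCB_ph_add (t u v : ℝ) : ph t (u + v) = ph t u * ph t v := by
  unfold ph
  rw [← Complex.exp_add]
  congr 1
  push_cast
  ring

private lemma VCB_ph_conj (t u : ℝ) : (starRingEnd ℂ) (ph t u) * ph t u = 1 := by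
  unfold ph
  rw [← Complex.exp_conj, ← Complex.exp_add]
  have h1 : (starRingEnd ℂ) (-((t * u : ℝ) : ℂ) * I) + -((t * u : ℝ) : ℂ) * I = 0 := by
    rw [map_mul, map_neg, Complex.conj_ofReal, Complex.conj_I]
    ring
  rw [h1, Complex.exp_zero]

theorem VCB : VCB_stmt := by
  intro K _ _ χ b t₀ hM hRep hpr hNT
  have hNpos : ∀ a : Ideal (𝓞 K), a ≠ ⊥ → 0 < Nm a := by
    intro a ha
    unfold Nm
    have h1 : Ideal.absNorm a ≠ 0 := by
      rw [Ne, Ideal.absNorm_eq_zero_iff]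
      exact ha
    exact_mod_cast Nat.pos_of_ne_zero h1
  have hNmul : ∀ a c : Ideal (𝓞 K), Nm (a * c) = Nm a * Nm c := by
    intro a c
    unfold Nm
    rw [map_mul]
    push_cast
    rfl
  set ψ : Ideal (𝓞 K) → ℂ := fun J => (starRingEnd ℂ) (χ J) * ph t₀ (Real.log (Nm J)) with hψ
  have hψmul : ∀ a c : Ideal (𝓞 K), a ≠ ⊥ → c ≠ ⊥ → ψ (a * c) = ψ a * ψ c := by
    intro a c ha hc
    show (starRingEnd ℂ) (χ (a * c)) * ph t₀ (Real.log (Nm (a * c))) =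
      ((starRingEnd ℂ) (χ a) * ph t₀ (Real.log (Nm a))) * ((starRingEnd ℂ) (χ c) * ph t₀ (Real.log (Nm c)))
    rw [hM.mul, map_mul, hNmul, Real.log_mul (hNpos a ha).ne' (hNpos c hc).ne', VCB_ph_add]
    ring
  have hψpr : ∀ x : 𝓞 K, x ≠ 0 → ψ (Ideal.span {x}) = 1 := by
    intro x hx
    show (starRingEnd ℂ) (χ (Ideal.span {x})) * ph t₀ (Real.log (Nm (Ideal.span {x}))) = 1
    rw [hpr x hx]
    exact VCB_ph_conj _ _
  have hsp : ∀ x : 𝓞 K, x ≠ 0 → Ideal.span {x} ≠ ⊥ := fun x hx h => hx (Ideal.span_singleton_eq_bot.1 h)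
  have hψcl : ∀ (a c : Ideal (𝓞 K)) (ha : a ≠ ⊥) (hc : c ≠ ⊥),
      ClassGroup.mk0 ⟨a, mem_nonZeroDivisors_of_ne_zero ha⟩ = ClassGroup.mk0 ⟨c, mem_nonZeroDivisors_of_ne_zero hc⟩ →
        ψ a = ψ c := by
    intro a c ha hc h
    obtain ⟨x, y, hx, hy, hxy⟩ := ClassGroup.mk0_eq_mk0_iff.1 h
    have h1 := congrArg ψ hxy
    change ψ (Ideal.span {x} * a) = ψ (Ideal.span {y} * c) at h1
    rw [hψmul _ _ (hsp x hx) ha, hψmul _ _ (hsp y hy) hc, hψpr x hx, hψpr y hy, one_mul, one_mul] at h1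
    exact h1
  obtain ⟨a, ha, hne⟩ : ∃ a : Ideal (𝓞 K), a ≠ ⊥ ∧ χ a ≠ ph t₀ (Real.log (Nm a)) := by
    by_contra h
    push Not at h
    exact hNT ⟨t₀, h⟩
  have hψa : ψ a ≠ 1 := by
    intro h
    apply hne
    have h1 : (starRingEnd ℂ) (χ a) * ph t₀ (Real.log (Nm a)) = 1 := h
    have h2 : χ a * (starRingEnd ℂ) (χ a) = 1 := by
      rw [Complex.mul_conj, Complex.normSq_eq_norm_sq, hM.unit a ha (by rw [sup_top_eq])]
      simp
    calc χ a = χ a * ((starRingEnd ℂ) (χ a) * ph t₀ (Real.log (Nm a))) := by rw [h1, mul_one]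
      _ = (χ a * (starRingEnd ℂ) (χ a)) * ph t₀ (Real.log (Nm a)) := by ring
      _ = ph t₀ (Real.log (Nm a)) := by rw [h2, one_mul]
  have hstep : ∀ c : ClassGroup (𝓞 K), ψ (b (c * ClassGroup.mk0 ⟨a, mem_nonZeroDivisors_of_ne_zero ha⟩)) = ψ (b c) * ψ a := by
    intro c
    obtain ⟨h1, h2⟩ := hRep (c * ClassGroup.mk0 ⟨a, mem_nonZeroDivisors_of_ne_zero ha⟩)
    obtain ⟨h3, h4⟩ := hRep c
    have h5 : b c * a ≠ ⊥ := mul_ne_zero h3 ha
    rw [← hψmul _ _ h3 ha]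
    refine hψcl _ _ h1 h5 ?_
    rw [h2]
    have h6 : (⟨b c * a, mem_nonZeroDivisors_of_ne_zero h5⟩ : nonZeroDivisors (Ideal (𝓞 K))) =
        ⟨b c, mem_nonZeroDivisors_of_ne_zero h3⟩ * ⟨a, mem_nonZeroDivisors_of_ne_zero ha⟩ := rfl
    rw [h6, map_mul]
    exact congrArg (fun x => x * ClassGroup.mk0 ⟨a, mem_nonZeroDivisors_of_ne_zero ha⟩) h4.symm
  have hsum : ∑ c, ψ (b c) = (∑ c, ψ (b c)) * ψ a := by
    rw [Finset.sum_mul]
    calc ∑ c, ψ (b c) = ∑ c, ψ (b (c * ClassGroup.mk0 ⟨a, mem_nonZeroDivisors_of_ne_zero ha⟩)) :=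
          (Equiv.sum_comp (Equiv.mulRight (ClassGroup.mk0 ⟨a, mem_nonZeroDivisors_of_ne_zero ha⟩)) fun c => ψ (b c)).symm
      _ = ∑ c, ψ (b c) * ψ a := Finset.sum_congr rfl fun c _ => hstep c
  have h0 : (∑ c, ψ (b c)) * (1 - ψ a) = 0 := by
    rw [mul_sub, mul_one, ← hsum, sub_self]
  rcases mul_eq_zero.1 h0 with h | h
  · exact h
  · exact absurd (sub_eq_zero.1 h).symm hψa

end Pool.Agent.UN
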